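import Pool.Agent.Q296.SumThreshold
import Pool.Agent.Q296.UpperDensityDef

namespace Pool.Agent.Results.MP_697cf1_co.ShiftedThresholdFails

open Pool.Agent.Q296 Pool.Agent.Q296.SumThreshold

/-- For ALL integers `m > l ≥ 1` (with `k = m / l`) there is a set `A` of positive integers of
upper density `> (k+1)/(k+2)` such that `m B + l B + t` is not contained in `A` for every
infinite `B` and every `t`. -/
theorem result : ∀ m l : ℕ, 1 ≤ l → l < m →
    ∃ A : Set ℕ, 0 ∉ A ∧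
      (((m : ℝ) / l) + 1) / (((m : ℝ) / l) + 2) < upperDensity A ∧
      ∀ B : Set ℕ, B.Infinite → ∀ t : ℕ,
        ¬ (∀ b₁ ∈ B, ∀ b₂ ∈ B, m * b₁ + l * b₂ + t ∈ A) := by
  intro m l hl hm
  obtain ⟨A, hA0, hd, hA⟩ := main m l 1 hl hm le_rfl
  refine ⟨A, hA0, ?_, fun B hB t => hA B hB t (fun _ _ _ _ => one_dvd _)⟩
  have hm0 : (0 : ℝ) < m := by exact_mod_cast (by omega : 0 < m)
  have hl0 : (0 : ℝ) < l := by exact_mod_cast hl
  have : (((m : ℝ) / l) + 1) / (((m : ℝ) / l) + 2) = 1 - (l : ℝ) / ((1 : ℕ) * (m + 2 * l)) := by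
    push_cast
    field_simp
    ring
  rw [this]
  exact hd

end Pool.Agent.Results.MP_697cf1_co.ShiftedThresholdFails
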