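import Pool.Agent.Q296.SumThreshold
import Pool.Agent.Q296.UpperDensityDef

namespace Pool.Agent.Results.MP_697cf1_co.UnshiftedThresholdFails

open Pool.Agent.Q296 Pool.Agent.Q296.SumThreshold

/-- For ALL integers `m > l ≥ 1` (with `k = m / l`) there is a set `A` of positive integers of
upper density `> 1 - 1/(l (k+1)(k+2))` such that `m B + l B` is not contained in `A` for every
infinite `B`. -/
theorem result : ∀ m l : ℕ, 1 ≤ l → l < m →
    ∃ A : Set ℕ, 0 ∉ A ∧
      1 - 1 / ((l : ℝ) * (((m : ℝ) / l) + 1) * (((m : ℝ) / l) + 2)) < upperDensity A ∧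
      ∀ B : Set ℕ, B.Infinite → ¬ (∀ b₁ ∈ B, ∀ b₂ ∈ B, m * b₁ + l * b₂ ∈ A) := by
  intro m l hl hm
  obtain ⟨A, hA0, hd, hA⟩ := main m l (m + l) hl hm (by omega)
  have hm0 : (0 : ℝ) < m := by exact_mod_cast (by omega : 0 < m)
  have hl0 : (0 : ℝ) < l := by exact_mod_cast hl
  refine ⟨A, hA0, ?_, ?_⟩
  · have : 1 - 1 / ((l : ℝ) * (((m : ℝ) / l) + 1) * (((m : ℝ) / l) + 2)) =
        1 - (l : ℝ) / ((m + l : ℕ) * (m + 2 * l)) := by
      push_cast
      field_simp
    rw [this]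
    exact hd
  · intro B hB hcon
    -- thin out to one residue class
    obtain ⟨r, hr⟩ : ∃ r, {b | b ∈ B ∧ b % (m + l) = r}.Infinite := by
      by_contra hc
      push Not at hc
      apply hB
      have hfin : (⋃ r ∈ Set.Iio (m + l), {b | b ∈ B ∧ b % (m + l) = r}).Finite :=
        Set.Finite.biUnion (Set.finite_Iio _) (fun r _ => hc r)
      refine hfin.subset (fun b hb => ?_)
      simp only [Set.mem_iUnion]
      exact ⟨b % (m + l), Nat.mod_lt _ (by omega), hb, rfl⟩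
    refine hA _ hr 0 ?_ ?_
    · rintro b₁ ⟨_, h1⟩ b₂ ⟨_, h2⟩
      have e1 : b₁ ≡ r [MOD (m + l)] := by
        rw [← h1]; exact (Nat.mod_modEq _ _).symm
      have e2 : b₂ ≡ r [MOD (m + l)] := by
        rw [← h2]; exact (Nat.mod_modEq _ _).symm
      have e3 : m * b₁ + l * b₂ + 0 ≡ m * r + l * r + 0 [MOD (m + l)] :=
        ((e1.mul_left m).add (e2.mul_left l)).add_right 0
      have e4 : (m + l) ∣ m * r + l * r + 0 := ⟨r, by ring⟩
      exact (e3.dvd_iff dvd_rfl).mpr e4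
    · rintro b₁ ⟨h1, _⟩ b₂ ⟨h2, _⟩
      simpa using hcon b₁ h1 b₂ h2

end Pool.Agent.Results.MP_697cf1_co.UnshiftedThresholdFails
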